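import Pool.Agent.MWFE.StmtsC

/-! Row FEQ of squad MWFE: the identities FE, FE'. -/

set_option autoImplicit false

namespace Pool.Agent.MWFE.H59

open Pool.Agent.Helper14_MV Pool.Agent.Helper2_MV Pool.Agent.MVD

/-- FE for every congruence with the general facts -/
theorem fe_all (rcf : RcfStmt) (exr : ExrStmt) (ffe : FfeStmt) (flz : FlzStmt) (n : ℕ) (β : FIC)
    (hn : 1 ≤ n) (hM : ModF β) (hI : Iso3 β) (hp : MWZ.Per n (RR β)) (it : MWGR.It n (RR β))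
    (r0 : MWZ.R0 (RR β)) (hl : MWZ.L n (RR β)) (hf : FF β) (hz : ZZ β) : MWGR.FE n 1 (RR β) := by
  by_cases hrc : RR β (cw 3 1) (cw 2 2)
  · exact rcf n β hn hp it hf hrc
  · obtain ⟨d, hd, hfe⟩ := exr n β hn hp hI it r0 hl hf hz hrc
    exact hfe (ffe d β hd (flz d β hM hd))

theorem feq (rcf : RcfStmt) (exr : ExrStmt) (mif : MifStmt) (ffe : FfeStmt) (flz : FlzStmt) :
    FeqStmt := by
  intro n hn β hw hc i1 it f1 f2
  have hf : FF β := f1
  have hz : ZZ β := f2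
  obtain ⟨m1, m2, m3, m4, m5, m6, m7, m8, m9⟩ := mif n β
  refine ⟨fe_all rcf exr ffe flz n β hn hw.md hw.iso hw.per it hc.1 hc.2 hf hz, ?_⟩
  exact m9 (fe_all rcf exr ffe flz n (mir β) hn (m1 hw.md) (m2 hw.iso) (m3 hw.per) (m4 it)
    (m5 hc.1) (m6 hc.2) (m8 hz) (m7 hf))

end Pool.Agent.MWFE.H59
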