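import Pool.Agent.MWFE.StmtsB
import Pool.Agent.Helper10_MVD.LIN
import Pool.Agent.Helper59_MWE.DCM

/-! Row DET of squad MWFE: decomposition of equivalent words. -/

set_option autoImplicit false

namespace Pool.Agent.MWFE.H59

open Pool.Agent.Helper14_MV Pool.Agent.Helper2_MV Pool.Agent.MVD
open Pool.Agent.MWE (Can XX fxy dxy dx dy up cp L4 pr Xs xl isx Fs nd nr)
open Pool.Agent.MWGR (cb)

theorem fil_sfr {l : List ℕ} (h : SFr l) : l.filter (fun a => decide (a % 3 = 2)) = [] := by
  rw [List.filter_eq_nil_iff]
  intro a ha hd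
  exact h a ha (of_decide_eq_true hd)

theorem fil_bw (R : List ℕ) (B : ℕ → List ℕ) (h : ∀ r ∈ R, SFr (B r)) :
    (Bw R B).filter (fun a => decide (a % 3 = 2)) = R.map (fun r => 3 * r + 2) := by
  induction R with
  | nil => rfl
  | cons r R ih =>
    have h1 := ih (fun s hs => h s (List.mem_cons_of_mem _ hs))
    have h2 := fil_sfr (h r List.mem_cons_self)
    have h3 : Bw (r :: R) B = (B r ++ [3 * r + 2]) ++ Bw R B := by
      simp [Bw]
    have h4 : decide ((3 * r + 2) % 3 = 2) = true := decide_eq_true (by omega)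
    rw [h3, List.filter_append, List.filter_append, h2, h1, List.map_cons]
    simp only [List.filter_cons, h4, List.filter_nil, if_true]
    rfl

theorem det : DetStmt := by
  intro β R B e w hI hR hB he h
  have h1 := RR.filter (β := β) (fun a => decide (a % 3 = 2)) h
  rw [List.filter_append, fil_bw R B hB, fil_sfr he, List.append_nil] at h1
  have hn : (R.map (fun r => 3 * r + 2)).Nodup := by
    refine List.Nodup.map ?_ hR
    intro a b hab
    simp only at hab
    omega
  have h2 := Pool.Agent.MVD.H10.lin β hI _ _ hn h1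
  exact Pool.Agent.MWE.H59.dcm R w hR h2

end Pool.Agent.MWFE.H59
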